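import Pool.Agent.H61.NVK.TargetsE2

set_option autoImplicit false

/-!
# NVK, part E: the constant term of a lattice (row E_L0E)
-/

open MeasureTheory Set Filter NumberField NumberField.InfinitePlace
open Pool.Agent.H65.CM4 Pool.Agent.H61.CM4 Pool.Agent.H61.NVK
open scoped Real nonZeroDivisors

namespace Pool.Agent.H64.NVE_L0E

variable {k : Type} [Field k] [NumberField k] [IsTotallyReal k]

theorem half (hZ0I : T_Z0I) (hFFE : T_FFE) (I J : Pool.Agent.H25.HK.FI k) (y : Pl k → ℝ)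
    (hI : I ≠ 0) (hJ : J ≠ 0) (hy : ∀ v, 0 < y v) (s : ℝ) (hs : s = Real.sqrt (∏ v, y v))
    (hs0 : 0 < s) :
    ∫ t in Ioi (1 : ℝ), (z0 I J y t - vR k) =
      s * (∫ t in Ioi (1 / s), (fF I t - vR k)) +
        s / cF I * ∫ t in Ioi s, (fF J t - vR k) / t := by
  have hsi : 0 < s⁻¹ := inv_pos.2 hs0
  have e1 : ∫ t in Ioi (1 : ℝ), (z0 I J y t - vR k) = ∫ t in Ioi (1 : ℝ),
      ((fun u => fF I u - vR k) (s⁻¹ * t) + s / cF I * (s * (fun u => (fF J u - vR k) / u) (s * t))) := by
    apply setIntegral_congr_fun measurableSet_Ioi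
    intro t ht
    have ht0 : (0 : ℝ) < t := lt_trans one_pos ht
    have h1 := hZ0I k I J y t hI hJ hy ht0
    rw [← hs] at h1
    simp only []
    rw [h1]
    have h2 : t / s = s⁻¹ * t := by rw [div_eq_inv_mul]
    have h3 : t * s = s * t := mul_comm _ _
    rw [h2, h3]
    have h4 : s / cF I * (s * ((fF J (s * t) - vR k) / (s * t))) =
        s / (cF I * t) * (fF J (s * t) - vR k) := by
      field_simp
    rw [h4]
    ring
  have i1 : IntegrableOn (fun t : ℝ => (fun u => fF I u - vR k) (s⁻¹ * t)) (Ioi 1) := by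
    rw [integrableOn_Ioi_comp_mul_left_iff (fun u => fF I u - vR k) 1 hsi]
    exact ((hFFE k I hI).2.1 (s⁻¹ * 1) (by positivity)).1
  have i2 : IntegrableOn (fun t : ℝ => s / cF I *
      (s * (fun u => (fF J u - vR k) / u) (s * t))) (Ioi 1) := by
    apply Integrable.const_mul
    apply Integrable.const_mul
    have := (integrableOn_Ioi_comp_mul_left_iff (fun u => (fF J u - vR k) / u) 1 hs0).2
      ((hFFE k J hJ).2.1 (s * 1) (by positivity)).2.1
    exact this
  rw [e1, integral_add i1 i2, integral_const_mul, integral_const_mul,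
    integral_comp_mul_left_Ioi (fun u => fF I u - vR k) 1 hsi,
    integral_comp_mul_left_Ioi (fun u => (fF J u - vR k) / u) 1 hs0, mul_one, mul_one,
    smul_eq_mul, smul_eq_mul, inv_inv, one_div]
  congr 1
  congr 1
  rw [← mul_assoc, mul_inv_cancel₀ hs0.ne', one_mul]

theorem B_dual (hFFE : T_FFE) (I : Pool.Agent.H25.HK.FI k) (hI : I ≠ 0) (hc : 0 < cF I) (T : ℝ)
    (hT : 0 < T) :
    ∫ u in Ioi T, (fF (dF I) u - vR k) / u =
      cF I * ∫ u in Ioc 0 (1 / T), (fF I u - vR k / (cF I * u)) := by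
  have key := integral_comp_rpow_Ioi (indicator (Ioc 0 (1 / T))
    (fun u => fF I u - vR k / (cF I * u))) (p := -1) (by norm_num)
  rw [setIntegral_indicator measurableSet_Ioc] at key
  have h1 : Ioi (0 : ℝ) ∩ Ioc 0 (1 / T) = Ioc 0 (1 / T) := by
    apply inter_eq_right.2
    intro x hx
    exact hx.1
  rw [h1] at key
  rw [← key]
  have h2 : ∫ x in Ioi (0 : ℝ), (|(-1 : ℝ)| * x ^ ((-1 : ℝ) - 1)) • indicator (Ioc 0 (1 / T))
      (fun u => fF I u - vR k / (cF I * u)) (x ^ (-1 : ℝ)) =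
      ∫ x in Ioi (0 : ℝ), indicator (Ici T) (fun x => (cF I)⁻¹ *
        ((fF (dF I) x - vR k) / x)) x := by
    apply setIntegral_congr_fun measurableSet_Ioi
    intro x hx
    have hx0 : (0 : ℝ) < x := hx
    simp only []
    have h3 : x ^ (-1 : ℝ) = x⁻¹ := Real.rpow_neg_one x
    have h4 : x ^ ((-1 : ℝ) - 1) = (x ^ 2)⁻¹ := by
      have : (-1 : ℝ) - 1 = -((2 : ℕ) : ℝ) := by norm_num
      rw [this, Real.rpow_neg hx0.le, Real.rpow_natCast]
    rw [h3, h4]
    by_cases hTx : T ≤ x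
    · have h5 : x⁻¹ ∈ Ioc 0 (1 / T) := by
        refine ⟨inv_pos.2 hx0, ?_⟩
        rw [one_div]
        exact inv_anti₀ hT hTx
      rw [indicator_of_mem h5, indicator_of_mem (show x ∈ Ici T from hTx)]
      have h6 := (hFFE k I hI).1 x hx0
      rw [one_div] at h6
      rw [h6, smul_eq_mul]
      have := hc.ne'
      have := hx0.ne'
      field_simp
      norm_num
    · have h5 : x⁻¹ ∉ Ioc 0 (1 / T) := by
        rintro ⟨-, h⟩
        apply hTx
        rw [one_div] at h
        exact (inv_le_inv₀ hx0 hT).1 h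
      rw [indicator_of_notMem h5, indicator_of_notMem (show x ∉ Ici T from hTx), smul_zero]
  rw [h2, setIntegral_indicator measurableSet_Ici]
  have h3 : Ioi (0 : ℝ) ∩ Ici T = Ici T := by
    apply inter_eq_right.2
    intro x hx
    exact lt_of_lt_of_le hT hx
  rw [h3, integral_Ici_eq_integral_Ioi, integral_const_mul, ← mul_assoc,
    mul_inv_cancel₀ hc.ne', one_mul]

theorem R_T (hFFE : T_FFE) (I : Pool.Agent.H25.HK.FI k) (hI : I ≠ 0) (T : ℝ)
    (hT : 0 < T) :
    (∫ u in Ioi T, (fF I u - vR k)) + ∫ u in Ioc 0 T, (fF I u - vR k / (cF I * u)) =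
      RF I + vR k * (T - 1) - vR k / cF I * Real.log T := by
  have hF := (hFFE k I hI).2.1
  have e1 := intervalIntegral.integral_interval_add_Ioi (hF 1 one_pos).1 (hF T hT).1
  have e2 : (∫ u in Ioc 0 T, (fF I u - vR k / (cF I * u))) -
      (∫ u in Ioc 0 1, (fF I u - vR k / (cF I * u))) =
      ∫ u in (1 : ℝ)..T, (fF I u - vR k / (cF I * u)) := by
    have h1 : IntervalIntegrable (fun u => fF I u - vR k / (cF I * u)) volume 0 T := by
      rw [intervalIntegrable_iff_integrableOn_Ioc_of_le hT.le]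
      exact (hF T hT).2.2
    have h2 : IntervalIntegrable (fun u => fF I u - vR k / (cF I * u)) volume 0 1 := by
      rw [intervalIntegrable_iff_integrableOn_Ioc_of_le zero_le_one]
      exact (hF 1 one_pos).2.2
    rw [← intervalIntegral.integral_of_le hT.le, ← intervalIntegral.integral_of_le zero_le_one]
    exact intervalIntegral.integral_interval_sub_left h1 h2
  have hii : IntervalIntegrable (fun u => fF I u - vR k) volume 1 T := by
    have h1 : IntegrableOn (fun u => fF I u - vR k) (Ioi (min 1 T)) :=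
      (hF (min 1 T) (lt_min one_pos hT)).1
    rw [intervalIntegrable_iff]
    apply h1.mono_set
    intro x hx
    exact hx.1
  have hij : IntervalIntegrable (fun u => fF I u - vR k / (cF I * u)) volume 1 T := by
    have h1 : IntegrableOn (fun u => fF I u - vR k / (cF I * u)) (Ioc 0 (max 1 T)) :=
      (hF (max 1 T) (lt_max_of_lt_left one_pos)).2.2
    rw [intervalIntegrable_iff]
    apply h1.mono_set
    intro x hx
    exact ⟨lt_of_le_of_lt (le_min zero_le_one hT.le) hx.1, hx.2⟩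
  have e3 : (∫ u in (1 : ℝ)..T, (fF I u - vR k / (cF I * u))) -
      (∫ u in (1 : ℝ)..T, (fF I u - vR k)) = vR k * (T - 1) - vR k / cF I * Real.log T := by
    rw [← intervalIntegral.integral_sub hij hii]
    have h1 : ∫ u in (1 : ℝ)..T, (fF I u - vR k / (cF I * u) - (fF I u - vR k)) =
        ∫ u in (1 : ℝ)..T, (vR k - vR k / cF I * (1 / u)) := by
      apply intervalIntegral.integral_congr
      intro u _
      simp only []
      have : vR k / (cF I * u) = vR k / cF I * (1 / u) := by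
        rw [div_mul_div_comm, mul_one]
      rw [this]
      ring
    have hi0 : IntervalIntegrable (fun u : ℝ => 1 / u) volume 1 T := by
      apply intervalIntegral.intervalIntegrable_one_div
      · intro x hx
        have h2 : min 1 T ≤ x := hx.1
        have : 0 < x := lt_of_lt_of_le (lt_min one_pos hT) h2
        exact this.ne'
      · exact continuousOn_id
    rw [h1, intervalIntegral.integral_sub intervalIntegrable_const (hi0.const_mul _),
      intervalIntegral.integral_const, intervalIntegral.integral_const_mul,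
      integral_one_div_of_pos one_pos hT, div_one, smul_eq_mul]
    ring
  have e4 : RF I = (∫ t in Ioi (1 : ℝ), (fF I t - vR k)) +
      ∫ t in Ioc (0 : ℝ) 1, (fF I t - vR k / (cF I * t)) := rfl
  rw [e4]
  linarith

theorem pf_L0E (hZ0I : T_Z0I) (hFFE : T_FFE) (hFRI : T_FRI) : T_L0E := by
  intro k _ _ _ a B y hy
  obtain ⟨hK, hI, hdK, hdI, -, -, hall, -, -, hDm, -⟩ := hFRI k a B
  obtain ⟨I, hIe⟩ : ∃ I, I = iF ((a : Ideal (𝓞 k)) * (B : Ideal (𝓞 k))) := ⟨_, rfl⟩
  obtain ⟨K, hKe⟩ : ∃ K, K = iF (a : Ideal (𝓞 k)) := ⟨_, rfl⟩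
  rw [← hIe] at hI hdI hDm
  rw [← hKe] at hK hdK hDm
  have hL0 : L0 (a : Ideal (𝓞 k)) B y =
      (∫ t in Ioi (1 : ℝ), (z0 I K y t - vR k)) +
      (Dm (Lb (a : Ideal (𝓞 k)) B) : ℝ)⁻¹ *
        (∫ t in Ioi (1 : ℝ), (z0 (dF K) (dF I) y t - vR k)) -
      vR k - (Dm (Lb (a : Ideal (𝓞 k)) B) : ℝ)⁻¹ * vR k := by
    rw [hIe, hKe]
    rfl
  rw [hL0, ← hIe, ← hKe, hDm]
  have hY : 0 < ∏ v, y v := Finset.prod_pos fun v _ => hy v
  obtain ⟨s, hs⟩ : ∃ s : ℝ, s = Real.sqrt (∏ v, y v) := ⟨_, rfl⟩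
  have hs0 : 0 < s := by
    rw [hs]
    exact Real.sqrt_pos.2 hY
  have hlog : Real.log (∏ v, y v) = 2 * Real.log s := by
    have : (∏ v, y v) = s ^ 2 := by rw [hs, Real.sq_sqrt hY.le]
    rw [this, Real.log_pow]
    norm_num
  obtain ⟨hddI, hcI, -, -, hcdI⟩ := hall I hI
  obtain ⟨hddK, hcK, -, -, hcdK⟩ := hall K hK
  have hcdK0 : 0 < cF (dF K) := (hall _ hdK).2.1
  have hcdK' : cF (dF K) = (cF K)⁻¹ := eq_inv_of_mul_eq_one_left hcdK
  have h1 := half hZ0I hFFE I K y hI hK hy s hs hs0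
  have h2 := half hZ0I hFFE (dF K) (dF I) y hdK hdI hy s hs hs0
  have h3 := B_dual hFFE I hI hcI s hs0
  have h4 := B_dual hFFE (dF K) hdK hcdK0 s hs0
  rw [hddK] at h4
  have h5 := R_T hFFE I hI (1 / s) (by positivity)
  have h6 := R_T hFFE (dF K) hdK (1 / s) (by positivity)
  rw [h1, h2, h3, h4, ← hs, hlog]
  have hls : Real.log (1 / s) = -Real.log s := by
    rw [one_div, Real.log_inv]
  rw [hls] at h5 h6
  generalize (∫ u in Ioi (1 / s), (fF I u - vR k)) = A1 at *
  generalize (∫ u in Ioc 0 (1 / s), (fF I u - vR k / (cF I * u))) = C1 at *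
  generalize (∫ u in Ioi (1 / s), (fF (dF K) u - vR k)) = A2 at *
  generalize (∫ u in Ioc 0 (1 / s), (fF (dF K) u - vR k / (cF (dF K) * u))) = C2 at *
  have h7 : A1 = RF I + vR k * (1 / s - 1) - vR k / cF I * -Real.log s - C1 := by linarith
  have h8 : A2 = RF (dF K) + vR k * (1 / s - 1) - vR k / cF (dF K) * -Real.log s - C2 := by
    linarith
  rw [h7, h8, hcdK']
  have := hcI.ne'
  have := hcK.ne'
  have := hs0.ne'
  field_simp
  ring

end Pool.Agent.H64.NVE_L0E
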