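import Pool.Agent.H61.NVK.TargetsE3

set_option autoImplicit false

/-!
# NVK, part E: derivatives along a line (row E_LND)
-/

open MeasureTheory Set Filter NumberField NumberField.InfinitePlace
open Pool.Agent.H65.CM4 Pool.Agent.H61.CM4 Pool.Agent.H61.NVK
open scoped Real nonZeroDivisors Topology

namespace Pool.Agent.H64.NVE_LND

theorem an_at {F : ℂ → ℂ} {ρ : ℝ} (hF : DifferentiableOn ℂ F (Metric.ball 0 ρ)) {s : ℝ}
    (hs : |s| < ρ) : AnalyticAt ℂ F (s : ℂ) := by
  apply hF.analyticAt
  apply Metric.isOpen_ball.mem_nhds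
  rw [mem_ball_zero_iff, Complex.norm_real]
  exact hs

theorem re_iter {F : ℂ → ℂ} {ρ : ℝ} (hF : DifferentiableOn ℂ F (Metric.ball 0 ρ)) (i : ℕ) :
    ∀ s : ℝ, |s| < ρ →
      iteratedDeriv i (fun x : ℝ => (F x).re) s = (iteratedDeriv i F (s : ℂ)).re := by
  induction i with
  | zero =>
    intro s _
    rw [iteratedDeriv_zero, iteratedDeriv_zero]
  | succ i ih =>
    intro s hs
    have hopen : IsOpen {x : ℝ | |x| < ρ} := isOpen_lt continuous_abs continuous_const
    have hev : iteratedDeriv i (fun x : ℝ => (F x).re) =ᶠ[𝓝 s]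
        fun x : ℝ => (iteratedDeriv i F (x : ℂ)).re := by
      filter_upwards [hopen.mem_nhds hs] with x hx
      exact ih x hx
    rw [iteratedDeriv_succ, iteratedDeriv_succ, hev.deriv_eq]
    have han : AnalyticAt ℂ (iteratedDeriv i F) (s : ℂ) := by
      rw [iteratedDeriv_eq_iterate]
      have h1 : AnalyticOnNhd ℂ F (Metric.ball 0 ρ) := hF.analyticOnNhd Metric.isOpen_ball
      apply h1.iterated_deriv i
      rw [mem_ball_zero_iff, Complex.norm_real]
      exact hs
    exact (han.differentiableAt.hasDerivAt.real_of_complex).deriv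

theorem line_bd {ι : Type} [Fintype ι] {G : (ι → ℝ) → ℝ} (hG : ContDiff ℝ (⊤ : ℕ∞) G)
    (p e : ι → ℝ) (he : ∀ v, |e v| ≤ 1) (i : ℕ) (s : ℝ) :
    ‖iteratedDeriv i (fun s : ℝ => G (fun v => p v + s * e v)) s‖ ≤
      ‖iteratedFDeriv ℝ i G (fun v => p v + s * e v)‖ := by
  have hne : ‖e‖ ≤ 1 := by
    rw [pi_norm_le_iff_of_nonneg zero_le_one]
    intro v
    exact he v
  have hfun : (fun s : ℝ => G (fun v => p v + s * e v)) =
      (fun w : ι → ℝ => G (p + w)) ∘ (ContinuousLinearMap.toSpanSingleton ℝ e) := by
    funext s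
    rfl
  have hG' : ContDiff ℝ (⊤ : ℕ∞) (fun w : ι → ℝ => G (p + w)) :=
    hG.comp (contDiff_const.add contDiff_id)
  rw [← norm_iteratedFDeriv_eq_norm_iteratedDeriv, hfun,
    ContinuousLinearMap.iteratedFDeriv_comp_right (ContinuousLinearMap.toSpanSingleton ℝ e) hG' s
      (i := i) (by exact_mod_cast le_top)]
  refine (ContinuousMultilinearMap.norm_compContinuousLinearMap_le _ _).trans ?_
  rw [iteratedFDeriv_comp_add_left]
  have h1 : ∏ _j : Fin i, ‖ContinuousLinearMap.toSpanSingleton ℝ e‖ ≤ 1 := by
    apply Finset.prod_le_one (fun _ _ => norm_nonneg _)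
    intro _ _
    rw [ContinuousLinearMap.norm_toSpanSingleton]
    exact hne
  have h2 : p + (ContinuousLinearMap.toSpanSingleton ℝ e) s = fun v => p v + s * e v := rfl
  rw [h2]
  exact mul_le_of_le_one_right (norm_nonneg _) h1

theorem pf_LND : T_LND := by
  intro ι _ G η ρ hη hρ hG hG0 m
  have hB0 : ∀ i : ℕ, ∃ B : ℝ, ∀ u ∈ Set.Icc (fun _ : ι => η) (fun _ : ι => 1 / η),
      ‖iteratedFDeriv ℝ i G u‖ ≤ B := fun i =>
    isCompact_Icc.exists_bound_of_continuousOn
      (hG.continuous_iteratedFDeriv (by exact_mod_cast le_top)).continuousOn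
  choose B hB using hB0
  obtain ⟨K, hK⟩ : ∃ K : ℝ, K = ∑ i ∈ Finset.range (m + 1),
      (m.choose i : ℝ) * |B i| * ((m - i).factorial / (ρ / 2) ^ (m - i)) := ⟨_, rfl⟩
  have hK0 : 0 ≤ K := by
    rw [hK]
    apply Finset.sum_nonneg
    intro i _
    positivity
  refine ⟨K + 1, by linarith, ?_⟩
  intro H L hL hH p e he
  have key : ∀ s0 : ℝ, ContDiffAt ℝ m (fun s : ℝ => G (fun v => p v + s * e v) *
      H (fun v => p v + s * e v)) s0 ∧
      |iteratedDeriv m (fun s : ℝ => G (fun v => p v + s * e v) *
        H (fun v => p v + s * e v)) s0| ≤ (K + 1) * L := by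
    intro s0
    by_cases hout : ∃ v, p v + s0 * e v ∉ Icc η (1 / η)
    · obtain ⟨v, hv⟩ := hout
      have hev : (fun s : ℝ => G (fun v => p v + s * e v) * H (fun v => p v + s * e v))
          =ᶠ[𝓝 s0] fun _ => (0 : ℝ) := by
        have hopen : IsOpen {s : ℝ | p v + s * e v ∉ Icc η (1 / η)} := by
          have hc : Continuous (fun s : ℝ => p v + s * e v) := by fun_prop
          exact (isClosed_Icc.isOpen_compl).preimage hc
        filter_upwards [hopen.mem_nhds hv] with s hs
        rw [hG0 _ ⟨v, hs⟩, zero_mul]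
      refine ⟨contDiffAt_const.congr_of_eventuallyEq hev, ?_⟩
      rw [hev.iteratedDeriv_eq]
      have : iteratedDeriv m (fun _ : ℝ => (0 : ℝ)) s0 = 0 := by
        simp
      rw [this, abs_zero]
      positivity
    · push Not at hout
      obtain ⟨F, hFd, hFr, hFb⟩ := hH (fun v => p v + s0 * e v) e
        (fun v => ⟨(hout v).1, (hout v).2⟩) he
      have hev : (fun s : ℝ => G (fun v => p v + s * e v) * H (fun v => p v + s * e v))
          =ᶠ[𝓝 s0] (fun s : ℝ => G (fun v => p v + s * e v)) *
            (fun s : ℝ => (fun x : ℝ => (F x).re) (s - s0)) := by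
        have hopen : IsOpen {s : ℝ | |s - s0| < ρ} :=
          isOpen_lt (continuous_abs.comp (continuous_id.sub continuous_const)) continuous_const
        filter_upwards [hopen.mem_nhds (by simpa using hρ)] with s hs
        have h1 := hFr (s - s0) hs
        have h2 : (fun v => p v + s0 * e v + (s - s0) * e v) = fun v => p v + s * e v := by
          funext v
          ring
        rw [h2] at h1
        rw [Pi.mul_apply]
        rw [h1, Complex.ofReal_re]
      have hg : ContDiffAt ℝ m (fun s : ℝ => G (fun v => p v + s * e v)) s0 := by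
        have h1 : ContDiff ℝ m (fun s : ℝ => G (fun v => p v + s * e v)) := by
          apply (hG.of_le (by exact_mod_cast le_top)).comp
          rw [contDiff_pi]
          intro v
          exact contDiff_const.add (contDiff_id.mul contDiff_const)
        exact h1.contDiffAt
      have hh : ContDiffAt ℝ m (fun s : ℝ => (fun x : ℝ => (F x).re) (s - s0)) s0 := by
        have h1 : ContDiffAt ℝ m (fun x : ℝ => (F x).re) (s0 - s0) := by
          have h2 : ContDiffAt ℂ m F ((s0 - s0 : ℝ) : ℂ) :=
            (an_at hFd (by simpa using hρ)).contDiffAt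
          exact h2.real_of_complex
        exact ContDiffAt.comp (f := fun s : ℝ => s - s0) s0 h1
          (contDiffAt_id.sub contDiffAt_const)
      refine ⟨(hg.mul hh).congr_of_eventuallyEq hev, ?_⟩
      rw [hev.iteratedDeriv_eq, iteratedDeriv_mul hg hh]
      have hgi : ∀ i : ℕ, |iteratedDeriv i (fun s : ℝ => G (fun v => p v + s * e v)) s0| ≤
          |B i| := by
        intro i
        refine (line_bd hG p e he i s0).trans ((hB i _ ?_).trans (le_abs_self _))
        exact ⟨fun v => (hout v).1, fun v => (hout v).2⟩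
      have hhi : ∀ i : ℕ, |iteratedDeriv i (fun s : ℝ => (fun x : ℝ => (F x).re) (s - s0)) s0| ≤
          i.factorial / (ρ / 2) ^ i * L := by
        intro i
        have h1 : iteratedDeriv i (fun s : ℝ => (fun x : ℝ => (F x).re) (s - s0)) s0 =
            (iteratedDeriv i F ((0 : ℝ) : ℂ)).re := by
          have h2 := congrFun (iteratedDeriv_comp_sub_const i (fun x : ℝ => (F x).re) s0) s0
          rw [sub_self] at h2
          rw [h2]
          exact re_iter hFd i 0 (by simpa using hρ)
        rw [h1, Complex.ofReal_zero]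
        refine (Complex.abs_re_le_norm _).trans ?_
        have h3 : DiffContOnCl ℂ F (Metric.ball 0 (ρ / 2)) := by
          apply DifferentiableOn.diffContOnCl
          apply hFd.mono
          intro z hz
          have := Metric.closure_ball_subset_closedBall hz
          rw [mem_closedBall_zero_iff] at this
          rw [mem_ball_zero_iff]
          linarith
        have h4 := Complex.norm_iteratedDeriv_le_of_forall_mem_sphere_norm_le i
          (by positivity : 0 < ρ / 2) h3 (fun z hz => hFb z (by
            rw [mem_sphere_zero_iff_norm] at hz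
            rw [mem_ball_zero_iff]
            linarith))
        refine h4.trans (le_of_eq (by ring))
      calc |∑ i ∈ Finset.range (m + 1), (m.choose i : ℝ) *
            iteratedDeriv i (fun s : ℝ => G (fun v => p v + s * e v)) s0 *
            iteratedDeriv (m - i) (fun s : ℝ => (fun x : ℝ => (F x).re) (s - s0)) s0|
          ≤ ∑ i ∈ Finset.range (m + 1), |(m.choose i : ℝ) *
            iteratedDeriv i (fun s : ℝ => G (fun v => p v + s * e v)) s0 *
            iteratedDeriv (m - i) (fun s : ℝ => (fun x : ℝ => (F x).re) (s - s0)) s0| :=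
            Finset.abs_sum_le_sum_abs _ _
        _ ≤ ∑ i ∈ Finset.range (m + 1), (m.choose i : ℝ) * |B i| *
            ((m - i).factorial / (ρ / 2) ^ (m - i) * L) := by
            apply Finset.sum_le_sum
            intro i _
            rw [abs_mul, abs_mul, abs_of_nonneg (Nat.cast_nonneg _)]
            apply mul_le_mul _ (hhi (m - i)) (abs_nonneg _) (by positivity)
            exact mul_le_mul_of_nonneg_left (hgi i) (Nat.cast_nonneg _)
        _ = K * L := by
            rw [hK, Finset.sum_mul]
            apply Finset.sum_congr rfl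
            intro i _
            ring
        _ ≤ (K + 1) * L := by nlinarith
  exact ⟨contDiff_iff_contDiffAt.2 fun s => (key s).1, fun s => (key s).2⟩

end Pool.Agent.H64.NVE_LND
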