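import Pool.Agent.H61.NVK.TargetsE3

set_option autoImplicit false

/-!
# NVK, part E: the metrics with complex discriminants (row E_QCX)
-/

open MeasureTheory Set Filter NumberField NumberField.InfinitePlace
open Pool.Agent.H65.CM4 Pool.Agent.H61.CM4 Pool.Agent.H61.NVK
open scoped Real nonZeroDivisors

namespace Pool.Agent.H64.NVE_QCX

/-- the argument of a number of the right half-plane -/
theorem arg_le {z : ℂ} (hz : 0 < z.re) : |z.arg| ≤ |z.im| / z.re := by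
  have h1 : |z.arg| < π / 2 := Complex.abs_arg_lt_pi_div_two_iff.2 (Or.inl hz)
  have h2 : |z.arg| ≤ Real.tan |z.arg| := Real.le_tan (abs_nonneg _) h1
  have h3 : Real.tan z.arg = z.im / z.re := Complex.tan_arg z
  refine h2.trans ?_
  rcases abs_choice z.arg with h | h
  · rw [h, h3]
    exact div_le_div_of_nonneg_right (le_abs_self _) hz.le
  · rw [h, Real.tan_neg, h3, ← neg_div]
    exact div_le_div_of_nonneg_right (neg_le_abs _) hz.le

/-- one place -/
theorem place {m : ℝ} (hm : 1 ≤ m) {W : ℂ} (x a b : ℝ) (hW : 0 < W.re)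
    (hi : |W.im| < W.re / (40 * m)) (hab : a ≠ 0 ∨ b ≠ 0) :
    (∃ ω : ℂ, qc (x : ℂ) (W ^ (1 / 2 : ℂ) / 2) a b = Complex.exp ω ∧ |ω.im| ≤ 3 / (80 * m)) ∧
    0 ≤ qr x (Real.sqrt ‖W‖ / 2) a b ∧
    qr x (Real.sqrt ‖W‖ / 2) a b ≤ 2 * ‖qc (x : ℂ) (W ^ (1 / 2 : ℂ) / 2) a b‖ := by
  have hW0 : W ≠ 0 := by
    rintro rfl
    simp at hW
  have hm0 : 0 < m := by linarith
  have hz : W ^ (1 / 2 : ℂ) = Complex.exp (Complex.log W * (1 / 2)) :=
    Complex.cpow_def_of_ne_zero hW0 _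
  have hz2 : (W ^ (1 / 2 : ℂ)) ^ 2 = W := by
    rw [hz, ← Complex.exp_nat_mul]
    have : ((2 : ℕ) : ℂ) * (Complex.log W * (1 / 2)) = Complex.log W := by push_cast; ring
    rw [this, Complex.exp_log hW0]
  have hzn : ‖W ^ (1 / 2 : ℂ)‖ = Real.sqrt ‖W‖ := by
    have h1 : ‖W ^ (1 / 2 : ℂ)‖ ^ 2 = ‖W‖ := by rw [← norm_pow, hz2]
    rw [← h1, Real.sqrt_sq (norm_nonneg _)]
  have hz0 : W ^ (1 / 2 : ℂ) ≠ 0 := by
    rw [hz]
    exact Complex.exp_ne_zero _
  have hzp : 0 < Real.sqrt ‖W‖ := Real.sqrt_pos.2 (norm_pos_iff.2 hW0)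
  -- the numerator
  obtain ⟨N0, hN0⟩ : ∃ N0 : ℂ, N0 = (((a + b * x) ^ 2 + b ^ 2 / 4 * W.re : ℝ) : ℂ) +
      ((b ^ 2 / 4 * W.im : ℝ) : ℂ) * Complex.I := ⟨_, rfl⟩
  have hre : N0.re = (a + b * x) ^ 2 + b ^ 2 / 4 * W.re := by
    rw [hN0]
    simp only [Complex.add_re, Complex.ofReal_re, Complex.mul_re, Complex.I_re, mul_zero,
      Complex.ofReal_im, Complex.I_im, zero_mul, sub_zero, add_zero]
  have him : N0.im = b ^ 2 / 4 * W.im := by
    rw [hN0]
    simp only [Complex.add_im, Complex.ofReal_re, Complex.mul_im, Complex.I_re, mul_zero,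
      Complex.ofReal_im, Complex.I_im, mul_one, zero_add, add_zero]
  have hq : qc (x : ℂ) (W ^ (1 / 2 : ℂ) / 2) a b = N0 / W ^ (1 / 2 : ℂ) := by
    have h1 : ((a : ℂ) + b * x) ^ 2 + ((b : ℂ) * (W ^ (1 / 2 : ℂ) / 2)) ^ 2 = N0 := by
      have h2 : ((b : ℂ) * (W ^ (1 / 2 : ℂ) / 2)) ^ 2 = (b : ℂ) ^ 2 / 4 * (W ^ (1 / 2 : ℂ)) ^ 2 := by
        ring
      rw [h2, hz2, hN0]
      have h3 : (W : ℂ) = (W.re : ℂ) + (W.im : ℂ) * Complex.I := (Complex.re_add_im W).symm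
      rw [h3]
      push_cast
      simp only [Complex.add_re, Complex.ofReal_re, Complex.mul_re, Complex.I_re, mul_zero,
        Complex.ofReal_im, Complex.I_im, mul_one, sub_zero, add_zero, Complex.add_im,
        Complex.mul_im, zero_add]
      ring
    unfold qc
    rw [h1]
    congr 1
    ring
  have hrep : 0 < N0.re := by
    rw [hre]
    rcases eq_or_ne b 0 with hb | hb
    · have ha : a ≠ 0 := by
        rcases hab with h | h
        · exact h
        · exact absurd hb h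
      rw [hb]
      have : 0 < a ^ 2 := by positivity
      nlinarith
    · have h1 : 0 < b ^ 2 / 4 * W.re := by positivity
      have h2 : 0 ≤ (a + b * x) ^ 2 := sq_nonneg _
      linarith
  have hN00 : N0 ≠ 0 := by
    rintro h
    rw [h] at hrep
    simp at hrep
  have himb : |N0.im| ≤ N0.re / (40 * m) := by
    rw [him, hre, abs_mul, abs_of_nonneg (by positivity : 0 ≤ b ^ 2 / 4)]
    have h1 : b ^ 2 / 4 * |W.im| ≤ b ^ 2 / 4 * (W.re / (40 * m)) :=
      mul_le_mul_of_nonneg_left hi.le (by positivity)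
    have h2 : b ^ 2 / 4 * (W.re / (40 * m)) = (b ^ 2 / 4 * W.re) / (40 * m) := by ring
    have h3 : (b ^ 2 / 4 * W.re) / (40 * m) ≤ ((a + b * x) ^ 2 + b ^ 2 / 4 * W.re) / (40 * m) := by
      apply div_le_div_of_nonneg_right _ (by positivity)
      have : 0 ≤ (a + b * x) ^ 2 := sq_nonneg _
      linarith
    linarith
  have hargN : |N0.arg| ≤ 1 / (40 * m) := by
    refine (arg_le hrep).trans ?_
    rw [div_le_iff₀ hrep]
    calc |N0.im| ≤ N0.re / (40 * m) := himb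
      _ = 1 / (40 * m) * N0.re := by ring
  have hargW : |W.arg| ≤ 1 / (40 * m) := by
    refine (arg_le hW).trans ?_
    rw [div_le_iff₀ hW]
    calc |W.im| ≤ W.re / (40 * m) := hi.le
      _ = 1 / (40 * m) * W.re := by ring
  refine ⟨⟨Complex.log N0 - Complex.log W * (1 / 2), ?_, ?_⟩, ?_, ?_⟩
  · rw [hq, Complex.exp_sub, Complex.exp_log hN00, ← hz]
  · have h1 : (Complex.log N0 - Complex.log W * (1 / 2)).im = N0.arg - W.arg * (1 / 2) := by
      have h2 : (Complex.log W * (1 / 2)).im = W.arg * (1 / 2) := by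
        have h3 : (1 / 2 : ℂ) = ((1 / 2 : ℝ) : ℂ) := by push_cast; rfl
        rw [h3, Complex.im_mul_ofReal, Complex.log_im]
      rw [Complex.sub_im, h2, Complex.log_im]
    rw [h1]
    have h4 : |N0.arg - W.arg * (1 / 2)| ≤ |N0.arg| + |W.arg| * (1 / 2) := by
      refine (abs_sub _ _).trans ?_
      rw [abs_mul, abs_of_pos (by norm_num : (0 : ℝ) < 1 / 2)]
    have h5 : 3 / (80 * m) = 1 / (40 * m) + 1 / (40 * m) * (1 / 2) := by
      field_simp
      norm_num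
    rw [h5]
    nlinarith [h4, hargN, hargW]
  · unfold qr
    positivity
  · have h1 : ‖qc (x : ℂ) (W ^ (1 / 2 : ℂ) / 2) a b‖ = ‖N0‖ / Real.sqrt ‖W‖ := by
      rw [hq, norm_div, hzn]
    rw [h1]
    have h2 : qr x (Real.sqrt ‖W‖ / 2) a b = ((a + b * x) ^ 2 + b ^ 2 / 4 * ‖W‖) / Real.sqrt ‖W‖ := by
      unfold qr
      have h3 : (b * (Real.sqrt ‖W‖ / 2)) ^ 2 = b ^ 2 / 4 * ‖W‖ := by
        have : (b * (Real.sqrt ‖W‖ / 2)) ^ 2 = b ^ 2 / 4 * Real.sqrt ‖W‖ ^ 2 := by ring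
        rw [this, Real.sq_sqrt (norm_nonneg _)]
      rw [h3]
      congr 1
      ring
    rw [h2, ← mul_div_assoc]
    apply div_le_div_of_nonneg_right _ hzp.le
    have h4 : N0.re ≤ ‖N0‖ := Complex.re_le_norm N0
    have h5 : ‖W‖ ≤ |W.re| + |W.im| := Complex.norm_le_abs_re_add_abs_im W
    have h6 : W.re / (40 * m) ≤ W.re := by
      rw [div_le_iff₀ (by positivity)]
      nlinarith
    have h7 : ‖W‖ ≤ 2 * W.re := by
      rw [abs_of_pos hW] at h5
      linarith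
    have h8 : b ^ 2 / 4 * ‖W‖ ≤ b ^ 2 / 4 * (2 * W.re) :=
      mul_le_mul_of_nonneg_left h7 (by positivity)
    have h9 : 0 ≤ (a + b * x) ^ 2 := sq_nonneg _
    rw [hre] at h4
    nlinarith

theorem pf_QCX (hIXD : T_IXD) : T_QCX := by
  intro k _ _ _ b W u hW hu
  obtain ⟨-, hdg, hcard, -⟩ := hIXD k
  have hm : (1 : ℝ) ≤ dg k := by exact_mod_cast hdg
  have huv : ∀ v : Pl k, rv v (u.1 : k) ≠ 0 ∨ rv v (u.2 : k) ≠ 0 := by
    intro v
    by_contra hcon
    push Not at hcon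
    apply hu
    have h1 : (u.1 : k) = 0 := (map_eq_zero (rv v)).1 hcon.1
    have h2 : (u.2 : k) = 0 := (map_eq_zero (rv v)).1 hcon.2
    have h3 : u.1 = 0 := by
      apply RingOfIntegers.ext
      rw [h1]
      simp
    have h4 : u.2 = 0 := by
      apply RingOfIntegers.ext
      rw [h2]
      simp
    exact Prod.ext h3 h4
  have key : ∀ v : Pl k, _ := fun v =>
    place hm (b v / 2) (rv v (u.1 : k)) (rv v (u.2 : k)) (hW v).1 (hW v).2 (huv v)
  choose ω hω1 hω2 using fun v => (key v).1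
  have hqn : qn (hx b) (hy W) u = Complex.exp (∑ v : Pl k, ω v) := by
    rw [Complex.exp_sum]
    unfold qn hx hy
    exact Finset.prod_congr rfl fun v _ => hω1 v
  have him : |(∑ v : Pl k, ω v).im| ≤ 3 / 80 := by
    rw [Complex.im_sum]
    refine (Finset.abs_sum_le_sum_abs _ _).trans ?_
    refine (Finset.sum_le_sum fun v _ => hω2 v).trans ?_
    rw [Finset.sum_const, Finset.card_univ, hcard, nsmul_eq_mul]
    have : (dg k : ℝ) * (3 / (80 * (dg k : ℝ))) = 3 / 80 := by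
      field_simp
    rw [this]
  obtain ⟨Ω, hΩ⟩ : ∃ Ω : ℂ, Ω = ∑ v : Pl k, ω v := ⟨_, rfl⟩
  rw [← hΩ] at hqn him
  have hcos : 9 / 10 ≤ Real.cos Ω.im := by
    have h1 := Real.one_sub_sq_div_two_le_cos (x := Ω.im)
    have h2 : Ω.im ^ 2 ≤ (3 / 80) ^ 2 := by
      rw [← sq_abs]
      exact pow_le_pow_left₀ (abs_nonneg _) him 2
    nlinarith
  have hsin : |Real.sin Ω.im| ≤ 3 / 80 := Real.abs_sin_le_abs.trans him
  have hexp : 0 < Real.exp Ω.re := Real.exp_pos _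
  refine ⟨?_, ?_, ?_⟩
  · rw [hqn, Complex.exp_re]
    have : 0 < Real.cos Ω.im := by linarith
    positivity
  · rw [hqn, Complex.exp_re, Complex.exp_im, abs_mul, abs_of_pos hexp, mul_div_assoc]
    apply mul_le_mul_of_nonneg_left _ hexp.le
    linarith
  · unfold qp qn hx hy
    rw [norm_prod]
    calc ∏ v : Pl k, qr (b v / 2) (Real.sqrt ‖W v‖ / 2) (rv v (u.1 : k)) (rv v (u.2 : k))
        ≤ ∏ v : Pl k, (2 * ‖qc ((b v / 2 : ℝ) : ℂ) (W v ^ (1 / 2 : ℂ) / 2) (rv v (u.1 : k))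
            (rv v (u.2 : k))‖) :=
          Finset.prod_le_prod (fun v _ => (key v).2.1) (fun v _ => (key v).2.2)
      _ = 2 ^ dg k * ∏ v : Pl k, ‖qc ((b v / 2 : ℝ) : ℂ) (W v ^ (1 / 2 : ℂ) / 2) (rv v (u.1 : k))
            (rv v (u.2 : k))‖ := by
          rw [Finset.prod_mul_distrib, Finset.prod_const, Finset.card_univ, hcard]

end Pool.Agent.H64.NVE_QCX
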