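import Pool.Agent.H61.NVK.TargetsE3
import Pool.Agent.H56.CV.SH

set_option autoImplicit false

/-!
# NVK, part E: the kernel on the left of the pole (row E_VC0)
-/

open MeasureTheory Set Filter NumberField NumberField.InfinitePlace
open Pool.Agent.H65.CM4 Pool.Agent.H61.CM4 Pool.Agent.H61.NVK
open scoped Real nonZeroDivisors

namespace Pool.Agent.H64.NVE_VC0

/-- the argument of a number of the right half-plane -/
theorem arg_le {z : ℂ} (hz : 0 < z.re) : |z.arg| ≤ |z.im| / z.re := by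
  have h1 : |z.arg| < π / 2 := Complex.abs_arg_lt_pi_div_two_iff.2 (Or.inl hz)
  have h2 : |z.arg| ≤ Real.tan |z.arg| := Real.le_tan (abs_nonneg _) h1
  have h3 : Real.tan z.arg = z.im / z.re := Complex.tan_arg z
  refine h2.trans ?_
  rcases abs_choice z.arg with h | h
  · rw [h, h3]
    exact div_le_div_of_nonneg_right (le_abs_self _) hz.le
  · rw [h, Real.tan_neg, h3, ← neg_div]
    exact div_le_div_of_nonneg_right (neg_le_abs _) hz.le

/-- the Gamma factor, continued to the left -/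
noncomputable def gE (w : ℂ) : ℂ :=
  (w - 1) * (2 * (π : ℂ)) ^ 2 * gG (w + 2) / ((w + 2) * (w + 1) ^ 2)

theorem two_pi_ne : (2 * (π : ℂ)) ≠ 0 := by
  simp [Real.pi_ne_zero]

theorem gE_eq {w : ℂ} (h0 : w ≠ 0) (hw : -1 < w.re) : gE w = gG w := by
  have h1 : w + 1 ≠ 0 := by
    intro h
    have := congrArg Complex.re h
    simp at this
    linarith
  have h2 : w + 2 ≠ 0 := by
    intro h
    have := congrArg Complex.re h
    simp at this
    linarith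
  have e1 : Complex.Gamma (w + 2) = (w + 1) * (w * Complex.Gamma w) := by
    have : w + 2 = (w + 1) + 1 := by ring
    rw [this, Complex.Gamma_add_one _ h1, Complex.Gamma_add_one _ h0]
  have e2 : (2 * (π : ℂ)) ^ (-(w + 2)) = (2 * (π : ℂ)) ^ (-w) * ((2 * (π : ℂ)) ^ 2)⁻¹ := by
    have : -(w + 2) = -w + -((2 : ℕ) : ℂ) := by push_cast; ring
    rw [this, Complex.cpow_add _ _ two_pi_ne, Complex.cpow_neg, Complex.cpow_neg,
      Complex.cpow_natCast]
  have h3 : ((2 * (π : ℂ)) ^ 2) ≠ 0 := pow_ne_zero _ two_pi_ne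
  unfold gE gG
  rw [e1, e2]
  field_simp
  ring

theorem gE_diff (hGGB : T_GGB) {w : ℂ} (hw : -1 < w.re) : DifferentiableAt ℂ gE w := by
  have h1 : w + 1 ≠ 0 := by
    intro h
    have := congrArg Complex.re h
    simp at this
    linarith
  have h2 : w + 2 ≠ 0 := by
    intro h
    have := congrArg Complex.re h
    simp at this
    linarith
  have h3 : DifferentiableAt ℂ (fun z : ℂ => gG (z + 2)) w := by
    have h4 : DifferentiableAt ℂ gG (w + 2) := by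
      apply hGGB.1
      simp
      linarith
    exact DifferentiableAt.comp (f := fun z : ℂ => z + 2) w h4 (by fun_prop)
  unfold gE
  refine DifferentiableAt.div ?_ (by fun_prop) (mul_ne_zero h2 (pow_ne_zero _ h1))
  exact DifferentiableAt.mul (by fun_prop) h3

theorem gE_bd (hGGB : T_GGB) : ∃ (C : ℝ) (j : ℕ), 0 ≤ C ∧ ∀ w : ℂ, -(1 / 2) ≤ w.re → w.re ≤ 2 →
    ‖gE w‖ ≤ C * (1 + |w.im|) ^ j * Real.exp (-(π * |w.im| / 2)) := by
  obtain ⟨C, j, hC, hb⟩ := hGGB.2 4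
  refine ⟨2 * ‖(2 * (π : ℂ)) ^ 2‖ * C * 4, j + 1, by positivity, fun w h1 h2 => ?_⟩
  have h3 := hb (w + 2) (by simp; linarith) (by simp; linarith)
  have him : (w + 2).im = w.im := by simp
  rw [him] at h3
  have hn1 : ‖w - 1‖ ≤ 2 * (1 + |w.im|) := by
    have h4 := Complex.norm_le_abs_re_add_abs_im (w - 1)
    have h5 : (w - 1).re = w.re - 1 := by simp
    have h6 : (w - 1).im = w.im := by simp
    rw [h5, h6] at h4
    have h7 : |w.re - 1| ≤ 2 := by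
      rw [abs_le]
      constructor <;> linarith
    have h8 := abs_nonneg w.im
    linarith
  have hn2 : 1 / 4 ≤ ‖(w + 2) * (w + 1) ^ 2‖ := by
    rw [norm_mul, norm_pow]
    have h4 : 1 ≤ ‖w + 2‖ := by
      have := Complex.re_le_norm (w + 2)
      have h5 : (w + 2).re = w.re + 2 := by simp
      linarith
    have h5 : 1 / 2 ≤ ‖w + 1‖ := by
      have := Complex.re_le_norm (w + 1)
      have h5 : (w + 1).re = w.re + 1 := by simp
      linarith
    nlinarith [norm_nonneg (w + 2), norm_nonneg (w + 1)]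
  have hE : 0 ≤ Real.exp (-(π * |w.im| / 2)) := (Real.exp_pos _).le
  have hi : 0 ≤ |w.im| := abs_nonneg _
  have hn3 : ‖gE w‖ = ‖w - 1‖ * ‖(2 * (π : ℂ)) ^ 2‖ * ‖gG (w + 2)‖ / ‖(w + 2) * (w + 1) ^ 2‖ := by
    unfold gE
    rw [norm_div, norm_mul, norm_mul]
  rw [hn3, div_le_iff₀ (by linarith)]
  have hX : ‖w - 1‖ * ‖(2 * (π : ℂ)) ^ 2‖ * ‖gG (w + 2)‖ ≤
      (2 * (1 + |w.im|)) * ‖(2 * (π : ℂ)) ^ 2‖ *
        (C * (1 + |w.im|) ^ j * Real.exp (-(π * |w.im| / 2))) := by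
    apply mul_le_mul _ h3 (norm_nonneg _) (by positivity)
    exact mul_le_mul_of_nonneg_right hn1 (norm_nonneg _)
  refine hX.trans ?_
  have hP : 0 ≤ 2 * ‖(2 * (π : ℂ)) ^ 2‖ * C * 4 * (1 + |w.im|) ^ (j + 1) *
      Real.exp (-(π * |w.im| / 2)) := by positivity
  calc (2 * (1 + |w.im|)) * ‖(2 * (π : ℂ)) ^ 2‖ *
        (C * (1 + |w.im|) ^ j * Real.exp (-(π * |w.im| / 2)))
      = (2 * ‖(2 * (π : ℂ)) ^ 2‖ * C * 4 * (1 + |w.im|) ^ (j + 1) *
      Real.exp (-(π * |w.im| / 2))) * (1 / 4) := by ring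
    _ ≤ _ := mul_le_mul_of_nonneg_left hn2 hP

/-- the integrand -/
noncomputable def Fu (n : ℕ) (r u : ℂ) : ℂ :=
  gE (u + 1 / 2) ^ n * r ^ (-(u + 1 / 2)) * r ^ (1 / 2 : ℂ)

theorem Fu_bd {C : ℝ} {j n : ℕ} (hC : 0 ≤ C) (hn : 1 ≤ n)
    (hb : ∀ w : ℂ, -(1 / 2) ≤ w.re → w.re ≤ 2 →
      ‖gE w‖ ≤ C * (1 + |w.im|) ^ j * Real.exp (-(π * |w.im| / 2)))
    {r u : ℂ} (hr : 0 < r.re) (hri : |r.im| ≤ r.re / 10) (h1 : -1 ≤ u.re) (h2 : u.re ≤ 3 / 2) :
    ‖Fu n r u‖ ≤ C ^ n * (1 + |u.im|) ^ (j * n) * ‖r‖ ^ (-u.re) := by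
  have hr0 : r ≠ 0 := by
    rintro rfl
    simp at hr
  have hrn : 0 < ‖r‖ := norm_pos_iff.2 hr0
  have hre : (u + 1 / 2).re = u.re + 1 / 2 := by simp
  have him : (u + 1 / 2).im = u.im := by simp
  have h3 := hb (u + 1 / 2) (by rw [hre]; linarith) (by rw [hre]; linarith)
  rw [him] at h3
  have h4 : ‖r ^ (-(u + 1 / 2))‖ = ‖r‖ ^ (-(u.re + 1 / 2)) * Real.exp (r.arg * u.im) := by
    rw [Complex.norm_cpow_of_ne_zero hr0, Complex.neg_re, Complex.neg_im, hre, him, mul_neg,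
      Real.exp_neg, div_inv_eq_mul]
  have h5 : ‖r ^ (1 / 2 : ℂ)‖ = ‖r‖ ^ (1 / 2 : ℝ) := by
    have h6 : (1 / 2 : ℂ) = ((1 / 2 : ℝ) : ℂ) := by push_cast; rfl
    rw [h6, Complex.norm_cpow_of_ne_zero hr0, Complex.ofReal_re, Complex.ofReal_im, mul_zero,
      Real.exp_zero, div_one]
  have harg : |r.arg| ≤ 1 / 10 := by
    refine (arg_le hr).trans ?_
    rw [div_le_iff₀ hr]
    linarith
  have hpi : (3 : ℝ) < π := Real.pi_gt_three
  have hexp : Real.exp (-(π * |u.im| / 2)) ^ n * Real.exp (r.arg * u.im) ≤ 1 := by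
    rw [← Real.exp_nat_mul, ← Real.exp_add]
    apply Real.exp_le_one_iff.2
    have h6 : r.arg * u.im ≤ 1 / 10 * |u.im| := by
      refine (le_abs_self _).trans ?_
      rw [abs_mul]
      exact mul_le_mul_of_nonneg_right harg (abs_nonneg _)
    have h7 : (1 : ℝ) ≤ n := by exact_mod_cast hn
    have h8 : 0 ≤ |u.im| := abs_nonneg _
    have h9 : (π * |u.im| / 2) ≤ n * (π * |u.im| / 2) := by
      apply le_mul_of_one_le_left _ h7
      positivity
    have h10 : 1 / 10 * |u.im| ≤ π * |u.im| / 2 := by nlinarith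
    linarith
  have hpow : ‖r‖ ^ (-(u.re + 1 / 2)) * ‖r‖ ^ (1 / 2 : ℝ) = ‖r‖ ^ (-u.re) := by
    rw [← Real.rpow_add hrn]
    congr 1
    ring
  unfold Fu
  rw [norm_mul, norm_mul, norm_pow, h4, h5]
  have h11 : ‖gE (u + 1 / 2)‖ ^ n ≤
      (C * (1 + |u.im|) ^ j * Real.exp (-(π * |u.im| / 2))) ^ n :=
    pow_le_pow_left₀ (norm_nonneg _) h3 n
  have hnn : 0 ≤ ‖r‖ ^ (-u.re) := Real.rpow_nonneg hrn.le _
  calc ‖gE (u + 1 / 2)‖ ^ n * (‖r‖ ^ (-(u.re + 1 / 2)) * Real.exp (r.arg * u.im)) *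
        ‖r‖ ^ (1 / 2 : ℝ)
      = ‖gE (u + 1 / 2)‖ ^ n * (Real.exp (r.arg * u.im) *
          (‖r‖ ^ (-(u.re + 1 / 2)) * ‖r‖ ^ (1 / 2 : ℝ))) := by ring
    _ = ‖gE (u + 1 / 2)‖ ^ n * (Real.exp (r.arg * u.im) * ‖r‖ ^ (-u.re)) := by rw [hpow]
    _ ≤ (C * (1 + |u.im|) ^ j * Real.exp (-(π * |u.im| / 2))) ^ n *
          (Real.exp (r.arg * u.im) * ‖r‖ ^ (-u.re)) :=
        mul_le_mul_of_nonneg_right h11 (mul_nonneg (Real.exp_pos _).le hnn)
    _ = (C ^ n * (1 + |u.im|) ^ (j * n) * ‖r‖ ^ (-u.re)) *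
          (Real.exp (-(π * |u.im| / 2)) ^ n * Real.exp (r.arg * u.im)) := by
        rw [mul_pow, mul_pow, ← pow_mul]
        ring
    _ ≤ (C ^ n * (1 + |u.im|) ^ (j * n) * ‖r‖ ^ (-u.re)) * 1 :=
        mul_le_mul_of_nonneg_left hexp (by positivity)
    _ = _ := mul_one _

theorem Fu_diff (hGGB : T_GGB) (n : ℕ) {r u : ℂ} (hr : r ≠ 0) (h1 : -1 ≤ u.re) :
    DifferentiableAt ℂ (Fu n r) u := by
  have h2 : DifferentiableAt ℂ (fun z : ℂ => gE (z + 1 / 2)) u := by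
    have h3 : DifferentiableAt ℂ gE (u + 1 / 2) := by
      apply gE_diff hGGB
      simp
      linarith
    exact DifferentiableAt.comp (f := fun z : ℂ => z + 1 / 2) u h3 (by fun_prop)
  have h4 : DifferentiableAt ℂ (fun z : ℂ => r ^ (-(z + 1 / 2))) u :=
    DifferentiableAt.const_cpow (by fun_prop) (Or.inl hr)
  have h5 : DifferentiableAt ℂ (fun z : ℂ => gE (z + 1 / 2) ^ n * r ^ (-(z + 1 / 2))) u :=
    (h2.pow n).mul h4
  exact h5.mul_const _

theorem gauss_bd (N : ℕ) (t : ℝ) :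
    (1 + |t|) ^ N * Real.exp (-t ^ 2) ≤ ((N + 2).factorial : ℝ) * Real.exp (5 / 4) *
      (1 + t ^ 2)⁻¹ := by
  have h0 : 0 ≤ |t| := abs_nonneg t
  have h1 : (1 + |t|) ^ (N + 2) ≤ ((N + 2).factorial : ℝ) * Real.exp (1 + |t|) := by
    have h2 := Real.pow_div_factorial_le_exp (1 + |t|) (by positivity) (N + 2)
    rw [div_le_iff₀ (by positivity)] at h2
    linarith
  have h2 : (1 + |t|) ^ N * (1 + t ^ 2) ≤ (1 + |t|) ^ (N + 2) := by
    rw [pow_add]
    apply mul_le_mul_of_nonneg_left _ (by positivity)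
    have h3 : t ^ 2 = |t| ^ 2 := (sq_abs t).symm
    rw [h3]
    nlinarith
  have h3 : Real.exp (1 + |t|) * Real.exp (-t ^ 2) ≤ Real.exp (5 / 4) := by
    rw [← Real.exp_add]
    apply Real.exp_le_exp.2
    have h3 : t ^ 2 = |t| ^ 2 := (sq_abs t).symm
    rw [h3]
    nlinarith [sq_nonneg (|t| - 1 / 2)]
  have h4 : 0 < 1 + t ^ 2 := by positivity
  rw [← div_eq_mul_inv, le_div_iff₀ h4]
  calc (1 + |t|) ^ N * Real.exp (-t ^ 2) * (1 + t ^ 2)
      = ((1 + |t|) ^ N * (1 + t ^ 2)) * Real.exp (-t ^ 2) := by ring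
    _ ≤ (((N + 2).factorial : ℝ) * Real.exp (1 + |t|)) * Real.exp (-t ^ 2) :=
        mul_le_mul_of_nonneg_right (h2.trans h1) (Real.exp_pos _).le
    _ = ((N + 2).factorial : ℝ) * (Real.exp (1 + |t|) * Real.exp (-t ^ 2)) := by ring
    _ ≤ _ := mul_le_mul_of_nonneg_left h3 (by positivity)

theorem gG_half_ne : gG (1 / 2) ≠ 0 := by
  unfold gG
  have h1 : Complex.Gamma (1 / 2) ≠ 0 := Complex.Gamma_ne_zero_of_re_pos (by norm_num)
  have h2 : (2 * (π : ℂ)) ^ (-(1 / 2 : ℂ)) ≠ 0 := by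
    rw [Complex.cpow_def_of_ne_zero two_pi_ne]
    exact Complex.exp_ne_zero _
  exact mul_ne_zero (mul_ne_zero (by norm_num) h1) h2

theorem pf_VC0 (hGGB : T_GGB) : T_VC0 := by
  intro n hn
  obtain ⟨C, j, hC, hb⟩ := gE_bd hGGB
  obtain ⟨g, hg⟩ : ∃ g : ℂ, g = gG (1 / 2) ^ n := ⟨_, rfl⟩
  have hg0 : g ≠ 0 := by
    rw [hg]
    exact pow_ne_zero _ gG_half_ne
  have hgn : 0 < ‖g‖ := norm_pos_iff.2 hg0
  obtain ⟨K, hK⟩ : ∃ K : ℝ, K = C ^ n * Real.exp 1 *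
      (((j * n + 2).factorial : ℝ) * Real.exp (5 / 4)) := ⟨_, rfl⟩
  have hK0 : 0 ≤ K := by
    rw [hK]
    positivity
  refine ⟨(1 / (2 * π)) * (K * π) / ‖g‖ + 1, by positivity, fun r hr hri hr1 => ?_⟩
  have hr0 : r ≠ 0 := by
    rintro rfl
    simp at hr
  have hrn : 0 < ‖r‖ := norm_pos_iff.2 hr0
  have hsh := Pool.Agent.H56.CV.pf_SH (Fu n r) (-1) (3 / 2) (by norm_num)
    (fun s h1 _ => Fu_diff hGGB n hr0 h1)
    ⟨C ^ n * ‖r‖ ^ (-(3 / 2) : ℝ), ((j * n : ℕ) : ℝ), fun s h1 h2 => by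
      refine (Fu_bd hC hn hb hr hri h1 h2).trans ?_
      rw [Real.rpow_natCast]
      have h3 : ‖r‖ ^ (-s.re) ≤ ‖r‖ ^ (-(3 / 2) : ℝ) :=
        Real.rpow_le_rpow_of_exponent_ge hrn hr1 (by linarith)
      calc C ^ n * (1 + |s.im|) ^ (j * n) * ‖r‖ ^ (-s.re)
          ≤ C ^ n * (1 + |s.im|) ^ (j * n) * ‖r‖ ^ (-(3 / 2) : ℝ) :=
            mul_le_mul_of_nonneg_left h3 (by positivity)
        _ = _ := by ring⟩
  obtain ⟨-, hi2, heq⟩ := hsh.2.1 (by norm_num) (by norm_num)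
  -- the left line
  obtain ⟨J, hJ⟩ : ∃ J : ℂ, J = ∫ t : ℝ, Fu n r (((-1 : ℝ) : ℂ) + t * Complex.I) *
      (Complex.exp ((((-1 : ℝ) : ℂ) + t * Complex.I) ^ 2) / (((-1 : ℝ) : ℂ) + t * Complex.I)) :=
    ⟨_, rfl⟩
  have hJn : ‖J‖ ≤ K * π * ‖r‖ := by
    rw [hJ]
    have hint : Integrable (fun t : ℝ => K * ‖r‖ * (1 + t ^ 2)⁻¹) :=
      integrable_inv_one_add_sq.const_mul _
    refine (norm_integral_le_of_norm_le hint (Eventually.of_forall fun t => ?_)).trans ?_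
    · have h1 := Fu_bd hC hn hb hr hri (u := ((-1 : ℝ) : ℂ) + t * Complex.I) (by simp) (by
        simp only [Complex.add_re, Complex.ofReal_re, Complex.mul_re, Complex.I_re, mul_zero,
          Complex.ofReal_im, Complex.I_im, mul_one, sub_zero, add_zero]
        norm_num)
      have hre : (((-1 : ℝ) : ℂ) + t * Complex.I).re = -1 := by simp
      have him : (((-1 : ℝ) : ℂ) + t * Complex.I).im = t := by simp
      rw [hre, him, neg_neg, Real.rpow_one] at h1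
      have h2 : ‖Complex.exp ((((-1 : ℝ) : ℂ) + t * Complex.I) ^ 2)‖ =
          Real.exp 1 * Real.exp (-t ^ 2) := by
        rw [Complex.norm_exp, pow_two, Complex.mul_re, hre, him, ← Real.exp_add]
        congr 1
        ring
      have h3 : 1 ≤ ‖((-1 : ℝ) : ℂ) + t * Complex.I‖ := by
        have := Complex.abs_re_le_norm (((-1 : ℝ) : ℂ) + t * Complex.I)
        rw [hre] at this
        simpa using this
      rw [norm_mul, norm_div, h2]
      have h4 : Real.exp 1 * Real.exp (-t ^ 2) / ‖((-1 : ℝ) : ℂ) + t * Complex.I‖ ≤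
          Real.exp 1 * Real.exp (-t ^ 2) := div_le_self (by positivity) h3
      have h5 := gauss_bd (j * n) t
      calc ‖Fu n r (((-1 : ℝ) : ℂ) + t * Complex.I)‖ *
            (Real.exp 1 * Real.exp (-t ^ 2) / ‖((-1 : ℝ) : ℂ) + t * Complex.I‖)
          ≤ (C ^ n * (1 + |t|) ^ (j * n) * ‖r‖) * (Real.exp 1 * Real.exp (-t ^ 2)) :=
            mul_le_mul h1 h4 (by positivity) (by positivity)
        _ = (C ^ n * Real.exp 1 * ‖r‖) * ((1 + |t|) ^ (j * n) * Real.exp (-t ^ 2)) := by ring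
        _ ≤ (C ^ n * Real.exp 1 * ‖r‖) * (((j * n + 2).factorial : ℝ) * Real.exp (5 / 4) *
            (1 + t ^ 2)⁻¹) := mul_le_mul_of_nonneg_left h5 (by positivity)
        _ = K * ‖r‖ * (1 + t ^ 2)⁻¹ := by
            rw [hK]
            ring
    · rw [integral_const_mul, integral_univ_inv_one_add_sq]
      exact le_of_eq (by ring)
  -- the right line
  have hR : (∫ t : ℝ, Fu n r (((3 / 2 : ℝ) : ℂ) + t * Complex.I) *
      (Complex.exp ((((3 / 2 : ℝ) : ℂ) + t * Complex.I) ^ 2) /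
        (((3 / 2 : ℝ) : ℂ) + t * Complex.I))) =
      r ^ (1 / 2 : ℂ) * ((2 * π : ℝ) * Kc n (1 / 2) r) := by
    have h1 : ((2 * π : ℝ) : ℂ) * Kc n (1 / 2) r = ∫ t : ℝ, gG (2 + t * Complex.I) ^ n *
        (Complex.exp ((2 + t * Complex.I - 1 / 2) ^ 2) / (2 + t * Complex.I - 1 / 2)) *
          r ^ (-(2 + t * Complex.I)) := by
      unfold Kc
      rw [← mul_assoc, ← Complex.ofReal_mul]
      have : (2 * π : ℝ) * (1 / (2 * π)) = 1 := by
        have := Real.pi_ne_zero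
        field_simp
      rw [this, Complex.ofReal_one, one_mul]
    rw [h1, ← integral_const_mul]
    apply integral_congr_ae
    refine Eventually.of_forall fun t => ?_
    have h2 : ((3 / 2 : ℝ) : ℂ) + t * Complex.I + 1 / 2 = 2 + t * Complex.I := by
      push_cast
      ring
    have h3 : ((3 / 2 : ℝ) : ℂ) + t * Complex.I = 2 + t * Complex.I - 1 / 2 := by
      push_cast
      ring
    have h4 : gE (2 + t * Complex.I) = gG (2 + t * Complex.I) := by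
      apply gE_eq
      · intro h
        have := congrArg Complex.re h
        simp at this
      · simp
        norm_num
    simp only []
    unfold Fu
    rw [h2, h4, ← h3]
    ring
  have hF0 : Fu n r 0 = g := by
    unfold Fu
    rw [zero_add, gE_eq (by norm_num) (by norm_num), ← hg, mul_assoc, ← Complex.cpow_add _ _ hr0,
      neg_add_cancel, Complex.cpow_zero, mul_one]
  rw [hR, ← hJ, hF0] at heq
  have hpi : ((2 * π : ℝ) : ℂ) ≠ 0 := by
    simp [Real.pi_ne_zero]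
  have hmain : r ^ (1 / 2 : ℂ) * Kc n (1 / 2) r / g - 1 = ((1 / (2 * π) : ℝ) : ℂ) * J / g := by
    have h1 : J = r ^ (1 / 2 : ℂ) * (((2 * π : ℝ) : ℂ) * Kc n (1 / 2) r) -
        ((2 * π : ℝ) : ℂ) * g := by
      have h2 : (((2 * π : ℝ) : ℂ)) = 2 * (Real.pi : ℂ) := by push_cast; ring
      rw [h2] at heq ⊢
      linear_combination -heq
    have h3 : ((1 / (2 * π) : ℝ) : ℂ) = (((2 * π : ℝ) : ℂ))⁻¹ := by
      push_cast
      ring
    rw [h1, h3]
    field_simp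
  rw [← hg, hmain, norm_div, norm_mul, Complex.norm_real,
    Real.norm_of_nonneg (by positivity : (0 : ℝ) ≤ 1 / (2 * π))]
  have h1 : 1 / (2 * π) * ‖J‖ / ‖g‖ ≤ 1 / (2 * π) * (K * π * ‖r‖) / ‖g‖ := by
    apply div_le_div_of_nonneg_right _ hgn.le
    exact mul_le_mul_of_nonneg_left hJn (by positivity)
  refine h1.trans ?_
  have h2 : 1 / (2 * π) * (K * π * ‖r‖) / ‖g‖ = (1 / (2 * π) * (K * π) / ‖g‖) * ‖r‖ := by ring
  rw [h2, add_mul, one_mul]
  linarith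

end Pool.Agent.H64.NVE_VC0
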